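import Mathlib
import Pool.Prelude.Def_F_c31e40fa
import Pool.Agent.Q186.Cen.Poly2

/-!
# The distance to the superattracting parameters of bounded period, up to powers of the period

For a Collet-Eckmann parameter `c₀` of the Multibrot set the distance `dist N` from `c₀` to the
superattracting parameters of period at most `N` is compared with the derivatives `D k` of the
iterates at the critical value: `dist N * D k ≤ A` for `k ≤ N`, and
`1 ≤ A * dist N * ∑ i < N, D i / |z_i|`, where `z_i` is the critical orbit, with the same constant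
`A` for all Collet-Eckmann parameters with given constants. So `dist N` is `1 / max D` up to a power
of `N` if the critical orbit recurs at most polynomially fast, and up to a constant if the critical
orbit is uniformly expanding. At almost every point for the harmonic measure this gives
`log (dist N) = - N log d + O(√(N log log N))`.
-/

set_option autoImplicit false

open Filter Topology Set Metric N62a1eb23

namespace Pool.Agent.Results.MP_c35c17_an.CentreDistanceLaw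

open Pool.Agent.H713R2 (IsExteriorMap)

/-- The map `z ↦ z ^ d + c`. -/
def f (d : ℕ) (c : ℂ) : ℂ → ℂ := fun z => z ^ d + c

/-- `c` is a superattracting parameter of period at most `N`: the critical point `0` is periodic of a
period `p ≤ N`, and so it lies on an attracting cycle. -/
def Centre (d N : ℕ) (c : ℂ) : Prop :=
  ∃ p : ℕ, 1 ≤ p ∧ p ≤ N ∧ (f d c)^[p] 0 = 0 ∧ IsAttractingCycle (f d c) p 0

/-- The distance of `c₀` to the superattracting parameters of period at most `N`. -/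
noncomputable def dist (d : ℕ) (c₀ : ℂ) (N : ℕ) : ℝ := infDist c₀ {c | Centre d N c}

/-- The modulus of the derivative of the `n`-th iterate at the critical value `c`. -/
noncomputable def D (d : ℕ) (c : ℂ) (n : ℕ) : ℝ := ‖deriv ((f d c)^[n]) c‖

/-- The Collet-Eckmann condition with explicit constants: `c` lies in the Multibrot set and
`D d c n` is at least `lam ^ n / C₁`. -/
def ColletEckmann (d : ℕ) (C₁ lam : ℝ) (c : ℂ) : Prop :=
  c ∈ multibrotSet d ∧ ∀ n : ℕ, lam ^ n ≤ C₁ * D d c n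

/-- The parameter `c` lies in the Multibrot set, and the `M`-th iterate of `z ^ d + c` has a
derivative of modulus at least `2` at every point of the orbit of the critical value `c`. -/
def Expanding (d M : ℕ) (c : ℂ) : Prop :=
  c ∈ multibrotSet d ∧ ∀ j : ℕ, 2 ≤ ‖deriv ((f d c)^[M]) ((f d c)^[j] c)‖

/-- Let `d ≥ 2`, and let `N ≥ 1` in all cases.

(1) For all constants `C₁ ≥ 1`, `lam > 1` there is `A` such that for every Collet-Eckmann parameter
`c₀` with these constants and every `N`: `dist N * D k ≤ A` for all `k ≤ N`;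
`1 ≤ A * dist N * ∑ i < N, D i / |z_i|`, where `z_i` is the `i`-th iterate of the critical value;
hence, if `|z_i| ≥ 1 / (C₂ (i + 1) ^ B)` for `i < N`, then `1 ≤ A C₂ N ^ (B + 1) * dist N * D k` for
some `k < N`.

(2) If the critical orbit of `c₀` is expanding for some iterate, then `1 / A ≤ dist N * D N ≤ A` for
all `N`.

(3) For the exterior map `ψ` of the Multibrot set and almost every angle `θ` the parameter ray of
angle `θ` lands at a boundary point `c₀` for which there are `A`, `B` such that for all `N`: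
`dist N * D k ≤ A` for all `k ≤ N`, `1 ≤ A N ^ B * dist N * D k` for some `k < N`, and
`|log (dist N) + N log d| ≤ A √(N log log (N + 16))`. -/
theorem result (d : ℕ) (hd : 2 ≤ d) :
    (∀ C₁ lam : ℝ, 1 ≤ C₁ → 1 < lam → ∃ A : ℝ, 0 < A ∧ ∀ c₀ : ℂ, ColletEckmann d C₁ lam c₀ →
      ∀ N : ℕ, 1 ≤ N →
        (∀ k ≤ N, dist d c₀ N * D d c₀ k ≤ A) ∧
        1 ≤ A * dist d c₀ N * ∑ i ∈ Finset.range N, D d c₀ i / ‖(f d c₀)^[i] c₀‖ ∧
        ∀ (C₂ : ℝ) (B : ℕ), (∀ i < N, 1 ≤ C₂ * ((i : ℝ) + 1) ^ B * ‖(f d c₀)^[i] c₀‖) →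
          ∃ k < N, 1 ≤ A * C₂ * (N : ℝ) ^ (B + 1) * dist d c₀ N * D d c₀ k) ∧
    (∀ (M : ℕ) (c₀ : ℂ), Expanding d M c₀ → ∃ A : ℝ, 0 < A ∧ ∀ N : ℕ, 1 ≤ N →
      dist d c₀ N * D d c₀ N ≤ A ∧ 1 ≤ A * (dist d c₀ N * D d c₀ N)) ∧
    (∃ ψ : ℂ → ℂ, IsExteriorMap (multibrotSet d) ψ) ∧
    ∀ ψ : ℂ → ℂ, IsExteriorMap (multibrotSet d) ψ →
      ∀ᵐ θ : ℝ, ∃ c₀ ∈ frontier (multibrotSet d),
        Tendsto (fun r : ℝ => ψ (r * Complex.exp (θ * Complex.I))) (𝓝[>] 1) (𝓝 c₀) ∧
        ∃ A : ℝ, 0 < A ∧ ∃ B : ℕ, ∀ N : ℕ, 1 ≤ N →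
          (∀ k ≤ N, dist d c₀ N * D d c₀ k ≤ A) ∧
          (∃ k < N, 1 ≤ A * (N : ℝ) ^ B * dist d c₀ N * D d c₀ k) ∧
          |Real.log (dist d c₀ N) + N * Real.log d| ≤
            A * √(N * Real.log (Real.log (N + 16))) := by
  have hcen : ∀ (N : ℕ), {c | Centre d N c} = {c | Pool.Agent.Q186.Cen.Cn d N c} := by
    intro N
    ext c
    constructor
    · rintro ⟨p, h1, h2, h3, h4⟩
      exact ⟨p, h1, h2, h3⟩
    · intro h
      obtain ⟨h1, p, h2, h3, h4, h5⟩ := Pool.Agent.Q186.Cen.cn_cycle hd h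
      exact ⟨p, h2, h3, h4, h5⟩
  have hdist : ∀ (c₀ : ℂ) (N : ℕ), dist d c₀ N = infDist c₀ {c | Pool.Agent.Q186.Cen.Cn d N c} := by
    intro c₀ N
    unfold dist
    rw [hcen]
  have hD : ∀ (c₀ : ℂ) (k : ℕ), D d c₀ k = Pool.Agent.Y298.SH.CD.Pd d c₀ k := fun _ _ => rfl
  have hz : ∀ (c₀ : ℂ) (k : ℕ), (f d c₀)^[k] c₀ = Pool.Agent.Y298.SH.CD.zz d c₀ k :=
    fun _ _ => rfl
  refine ⟨?_, ?_, ?_⟩
  · intro C₁ lam hC₁ hlam
    obtain ⟨A₁, hA₁, H₁⟩ := Pool.Agent.Q186.Cen.dist_upper hd C₁ lam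
    obtain ⟨A₂, hA₂, H₂⟩ := Pool.Agent.Q186.Cen.dist_lower hd C₁ lam
    refine ⟨A₁ + A₂, by positivity, fun c₀ h₀ N hN => ?_⟩
    have hc := Pool.Agent.Y298.SH.CD.cep_of_mem hd hC₁ hlam h₀.1 h₀.2
    have hpos : ∀ j, 0 < Pool.Agent.Y298.SH.CD.Pd d c₀ j := hc.Pd_pos
    have hzp : ∀ j, 0 < ‖Pool.Agent.Y298.SH.CD.zz d c₀ j‖ :=
      fun j => norm_pos_iff.2 (hc.zz_ne j)
    have h0 : 0 ≤ infDist c₀ {c | Pool.Agent.Q186.Cen.Cn d N c} := infDist_nonneg
    simp only [hdist, hD, hz]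
    have hlow : 1 ≤ (A₁ + A₂) * infDist c₀ {c | Pool.Agent.Q186.Cen.Cn d N c} *
        ∑ i ∈ Finset.range N, Pool.Agent.Y298.SH.CD.Pd d c₀ i /
          ‖Pool.Agent.Y298.SH.CD.zz d c₀ i‖ := by
      refine (H₂ c₀ hc N hN).trans ?_
      have h1 : 0 ≤ ∑ i ∈ Finset.range N, Pool.Agent.Y298.SH.CD.Pd d c₀ i /
          ‖Pool.Agent.Y298.SH.CD.zz d c₀ i‖ :=
        Finset.sum_nonneg fun i _ => (div_pos (hpos i) (hzp i)).le
      have h2 : A₂ ≤ A₁ + A₂ := by linarith
      gcongr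
    refine ⟨fun k hk => (H₁ c₀ hc N hN k hk).trans (by linarith), hlow, ?_⟩
    intro C₂ B hr
    exact Pool.Agent.Q186.Cen.lower_poly (d := d) (by positivity) h0 hN hpos hzp hlow hr
  · intro M c₀ h₀
    have hS : Pool.Agent.Y298.SH.SHyp d M c₀ := by
      refine ⟨hd, ?_, fun j => ?_, h₀.2⟩
      · by_contra hM
        have hM0 : M = 0 := by omega
        have h3 := h₀.2 0
        subst hM0
        simp only [Function.iterate_zero, deriv_id', norm_one] at h3
        linarith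
      · have h3 := (Pool.Agent.H712R2.mem_multibrot_iff hd c₀).mp h₀.1 (j + 1)
        rw [Pool.Agent.Y298.SH.CD.P_succ_eq hd] at h3
        exact h3
    obtain ⟨⟨C₁, lam, hc⟩, K, hK, hKN⟩ := Pool.Agent.Q186.Cen.sum_expanding hS
    obtain ⟨A₁, hA₁, H₁⟩ := Pool.Agent.Q186.Cen.dist_upper hd C₁ lam
    obtain ⟨A₂, hA₂, H₂⟩ := Pool.Agent.Q186.Cen.dist_lower hd C₁ lam
    refine ⟨A₁ + A₂ * K, by positivity, fun N hN => ?_⟩
    simp only [hdist, hD]
    have h0 : 0 ≤ infDist c₀ {c | Pool.Agent.Q186.Cen.Cn d N c} := infDist_nonneg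
    have hP := Pool.Agent.Y298.SH.CD.Pd_nonneg d c₀ N
    refine ⟨(H₁ c₀ hc N hN N le_rfl).trans ?_, (H₂ c₀ hc N hN).trans ?_⟩
    · have : 0 < A₂ * K := by positivity
      linarith
    · calc A₂ * infDist c₀ {c | Pool.Agent.Q186.Cen.Cn d N c} *
            ∑ i ∈ Finset.range N, Pool.Agent.Y298.SH.CD.Pd d c₀ i /
              ‖Pool.Agent.Y298.SH.CD.zz d c₀ i‖
          ≤ A₂ * infDist c₀ {c | Pool.Agent.Q186.Cen.Cn d N c} *
            (K * Pool.Agent.Y298.SH.CD.Pd d c₀ N) := by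
            gcongr
            exact hKN N
        _ = A₂ * K * (infDist c₀ {c | Pool.Agent.Q186.Cen.Cn d N c} *
            Pool.Agent.Y298.SH.CD.Pd d c₀ N) := by ring
        _ ≤ _ := by
            have h1 : A₂ * K ≤ A₁ + A₂ * K := by linarith
            gcongr
  · obtain ⟨β, hβ⟩ := Pool.Agent.H713R2.exists_beta (d := d) hd
    refine ⟨⟨_, Pool.Agent.H713R2.exteriorMap_of_beta hβ⟩, ?_⟩
    intro ψ hψ
    filter_upwards [Pool.Agent.Y272.TY.ae_neg' (Pool.Agent.Y272.TY.typical_all hd hβ)] with θ hθ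
    obtain ⟨c₀, A, R, h⟩ := hθ
    refine ⟨c₀, h.frontier hd hβ, h.tendsto_psi hβ hψ, ?_⟩
    simp only [hdist, hD]
    exact Pool.Agent.Q186.Cen.typ_dist hd hβ h

end Pool.Agent.Results.MP_c35c17_an.CentreDistanceLaw
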