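import Mathlib
import Pool.Prelude.Def_F_c31e40fa
import Pool.Agent.Q186.Cen.Grn

set_option autoImplicit false

/-! # Superattracting parameters of bounded period and the level sets of Green's function

For parameters `c` outside the Multibrot set with Green's function at least `C d ^ (-N)` the distance
to the Multibrot set and the distance to the superattracting parameters of period at most `N` agree
up to the factor `1 + ε`. -/

open Filter Topology Set Metric N62a1eb23

namespace Pool.Agent.Results.MP_c35c17_an.CentresAtGreenLevel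

/-- The map `z ↦ z ^ d + c`. -/
def f (d : ℕ) (c : ℂ) : ℂ → ℂ := fun z => z ^ d + c

/-- `c` is a superattracting parameter of period at most `N`: the critical point `0` is periodic of a
period `p ≤ N`, and so it lies on an attracting cycle. -/
def Centre (d N : ℕ) (c : ℂ) : Prop :=
  ∃ p : ℕ, 1 ≤ p ∧ p ≤ N ∧ (f d c)^[p] 0 = 0 ∧ IsAttractingCycle (f d c) p 0

/-- Green's function of the Multibrot set at `c`: the escape rate of the critical value. -/
noncomputable def green (d : ℕ) (c : ℂ) : ℝ :=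
  limsup (fun n : ℕ => Real.posLog ‖(f d c)^[n] c‖ / (d : ℝ) ^ n) atTop

/-- Let `d ≥ 2` and `ε > 0`. (0) The function `green d` vanishes on the Multibrot set and is positive
outside of it; it is `log ‖w‖` at `ψ w`, for the exterior map `ψ`. There are `B` and `C` such that:

(1) if `c` is outside the Multibrot set and the critical orbit satisfies `‖f^n 0‖ > B max (1, ‖c‖)`,
then there is a superattracting parameter of period at most `n + 1` at distance at most `1 + ε` times
the distance of `c` to the Multibrot set;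

(2) if `green d c ≥ C / d ^ N`, there is a superattracting parameter of period at most `N` whose
distance to `c` is between the distance of `c` to the Multibrot set and `1 + ε` times this distance;

(3) for every `c₀` in the Multibrot set, if Green's function is at least `C / d ^ N` at some point of
the closed disc of radius `r` about `c₀`, there is a superattracting parameter of period at most `N`
in the disc of radius `(1 + ε) r` about `c₀`. -/
theorem result (d : ℕ) (hd : 2 ≤ d) :
    ((∀ c ∈ multibrotSet d, green d c = 0) ∧ (∀ c ∉ multibrotSet d, 0 < green d c) ∧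
      ∀ ψ : ℂ → ℂ, Pool.Agent.H713R2.IsExteriorMap (multibrotSet d) ψ →
        ∀ w : ℂ, 1 < ‖w‖ → green d (ψ w) = Real.log ‖w‖) ∧
    ∀ ε : ℝ, 0 < ε → ∃ B C : ℝ, 0 < B ∧ 0 < C ∧
      (∀ c ∉ multibrotSet d, ∀ n : ℕ, B * max 1 ‖c‖ < ‖(f d c)^[n] 0‖ →
        ∃ c' : ℂ, Centre d (n + 1) c' ∧ ‖c' - c‖ ≤ (1 + ε) * infDist c (multibrotSet d)) ∧
      (∀ c ∉ multibrotSet d, ∀ N : ℕ, 1 ≤ N → C ≤ green d c * (d : ℝ) ^ N →
        ∃ c' : ℂ, Centre d N c' ∧ infDist c (multibrotSet d) ≤ ‖c' - c‖ ∧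
          ‖c' - c‖ ≤ (1 + ε) * infDist c (multibrotSet d)) ∧
      (∀ c₀ ∈ multibrotSet d, ∀ (r : ℝ) (N : ℕ), 1 ≤ N →
        (∃ c : ℂ, ‖c - c₀‖ ≤ r ∧ C ≤ green d c * (d : ℝ) ^ N) →
          ∃ c' : ℂ, Centre d N c' ∧ ‖c' - c₀‖ < (1 + ε) * r) := by
  have hcen : ∀ (N : ℕ) (c : ℂ), Pool.Agent.Q186.Cen.Cn d N c →
      c ∈ multibrotSet d ∧ Centre d N c := by
    intro N c h
    obtain ⟨h1, p, h2, h3, h4, h5⟩ := Pool.Agent.Q186.Cen.cn_cycle hd h
    exact ⟨h1, p, h2, h3, h4, h5⟩
  refine ⟨⟨fun c hc => Pool.Agent.Q186.Cen.green_mem hd hc,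
    fun c hc => Pool.Agent.Q186.Cen.green_pos hd hc,
    fun ψ hψ w hw => Pool.Agent.Q186.Cen.green_psi hd hψ hw⟩, ?_⟩
  intro ε hε
  refine ⟨Pool.Agent.Q186.Cen.BE ε, Pool.Agent.Q186.Cen.CE d ε,
    lt_of_lt_of_le one_pos (Pool.Agent.Q186.Cen.BE_ge ε), Pool.Agent.Q186.Cen.CE_pos hε, ?_, ?_, ?_⟩
  · intro c hc n hn
    obtain ⟨c', h1, h2⟩ := Pool.Agent.Q186.Cen.escape hd hε hc hn
    exact ⟨c', (hcen _ _ h1).2, h2⟩
  · intro c hc N hN hg
    obtain ⟨c', h1, h2⟩ := Pool.Agent.Q186.Cen.outside hd hε hc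
      (Pool.Agent.Q186.Cen.rate_green hd c) hN hg
    refine ⟨c', (hcen _ _ h1).2, ?_, h2⟩
    have h3 := infDist_le_dist_of_mem (x := c) (hcen _ _ h1).1
    rwa [dist_comm, dist_eq_norm] at h3
  · rintro c₀ hc₀ r N hN ⟨c, hr, hg⟩
    have hc : c ∉ multibrotSet d := by
      intro hc
      have h1 := Pool.Agent.Q186.Cen.green_mem hd hc
      have h2 := Pool.Agent.Q186.Cen.CE_pos (d := d) hε
      change Pool.Agent.Q186.Cen.CE d ε ≤ Pool.Agent.Q186.Cen.green d c * (d : ℝ) ^ N at hg
      rw [h1, zero_mul] at hg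
      linarith
    obtain ⟨c', h1, h2⟩ := Pool.Agent.Q186.Cen.inside hd hε hc₀ hc hr
      (Pool.Agent.Q186.Cen.rate_green hd c) hN hg
    exact ⟨c', (hcen _ _ h1).2, h2⟩

end Pool.Agent.Results.MP_c35c17_an.CentresAtGreenLevel
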