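import Mathlib
import Pool.Prelude.Def_F_c31e40fa
import Pool.Agent.Y298.CA.ScaAll

/-!
# Exact scaling of the hyperbolic part of the Multibrot sets

At every parameter `c₀` of the Multibrot set `M_d` whose critical value has a positive Lyapunov
exponent (this is so for harmonic-almost every boundary point), and for every degree `d ≥ 2`:

* the area of `M_d` in the disc of radius `r` about `c₀` is `r ^ (2 d / (d - 1) + o(1))`, and so is the
  area of its hyperbolic part (the parameters with an attracting cycle): near `c₀` the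
  non-hyperbolic part of `M_d` has no larger exponent than the hyperbolic one;
* the largest disc in `M_d`, and the largest disc consisting of hyperbolic parameters, at distance at
  most `r` from `c₀`, both have the radius `r ^ (d / (d - 1) + o(1))`;
* every `c` in `M_d` is at distance at most `C |c - c₀| ^ σ` from a superattracting parameter and from
  a parameter outside of `M_d`, for every `σ < d / (d - 1)`; this exponent is optimal, by the
  previous point.

The mathematics is in the modules `Pool.Agent.Y298.CA.*` of the starting tree (the lower bounds, the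
assembly, and the equality of the exponents were not handed in there; the exponent of the area of
`M_d` alone is part of the starting result `MP_28f8a1_an.ColletEckmannUnicritical`).
-/

set_option autoImplicit false

open Set Filter Metric MeasureTheory Topology
open N62a1eb23 (multibrotSet IsAttractingCycle)
open Pool.Agent.H713R2 (IsExteriorMap)

namespace Pool.Agent.Results.MP_c35c17_an.ExactScaling

/-- The map `z ↦ z ^ d + c`. -/
def f (d : ℕ) (c : ℂ) : ℂ → ℂ := fun z => z ^ d + c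

/-- The hyperbolic part of the Multibrot set: the parameters with an attracting cycle. -/
def hyp (d : ℕ) : Set ℂ := {c | c ∈ multibrotSet d ∧ ∃ m z, IsAttractingCycle (f d c) m z}

/-- `c` is superattracting: the critical point `0` is periodic, and lies on an attracting cycle. -/
def Centre (d : ℕ) (c : ℂ) : Prop :=
  ∃ p : ℕ, 1 ≤ p ∧ (f d c)^[p] 0 = 0 ∧ IsAttractingCycle (f d c) p 0

/-- The inradius of a set. -/
noncomputable def inradius (S : Set ℂ) : ℝ := sSup {ρ : ℝ | 0 ≤ ρ ∧ ∃ c : ℂ, ball c ρ ⊆ S}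

/-- `F r` behaves like `r ^ a` for `r → 0`, in the sense of exponents. -/
def Exponent (F : ℝ → ℝ) (a : ℝ) : Prop :=
  Tendsto (fun r : ℝ => Real.log (F r) / Real.log r) (𝓝[>] 0) (𝓝 a)

/-- The scaling at `c₀`. -/
def Scales (d : ℕ) (c₀ : ℂ) : Prop :=
  Exponent (fun r => (volume (multibrotSet d ∩ ball c₀ r)).toReal) (2 * d / (d - 1)) ∧
  Exponent (fun r => (volume (hyp d ∩ ball c₀ r)).toReal) (2 * d / (d - 1)) ∧
  Exponent (fun r => inradius (multibrotSet d ∩ ball c₀ r)) (d / (d - 1)) ∧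
  Exponent (fun r => inradius (hyp d ∩ ball c₀ r)) (d / (d - 1)) ∧
  ∀ σ : ℝ, 0 ≤ σ → σ < d / (d - 1) → ∃ C : ℝ, 0 < C ∧ ∀ c ∈ multibrotSet d, c ≠ c₀ →
    (∃ c' : ℂ, Centre d c' ∧ ‖c' - c‖ ≤ C * ‖c - c₀‖ ^ σ) ∧
    ∃ c' : ℂ, c' ∉ multibrotSet d ∧ ‖c' - c‖ ≤ C * ‖c - c₀‖ ^ σ

/-- The critical value `c₀` of `z ↦ z ^ d + c₀` has the positive Lyapunov exponent `χ`. -/
def LyapunovExponent (d : ℕ) (c₀ : ℂ) (χ : ℝ) : Prop :=
  0 < χ ∧ Tendsto (fun n : ℕ => Real.log ‖deriv ((f d c₀)^[n]) c₀‖ / n) atTop (𝓝 χ)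

/-- Let `d ≥ 2`. (1) At every parameter `c₀` of the Multibrot set `M_d` with a positive Lyapunov
exponent the area of `M_d` and the area of its hyperbolic part have the same exponent
`2 d / (d - 1)`, their inradii have the same exponent `d / (d - 1)`, and superattracting parameters
and parameters outside of `M_d` are dense in `M_d` at `c₀` with every power `σ < d / (d - 1)` of the
distance. (2) For the exterior map `ψ` of `M_d` and almost every angle `θ`, this holds at the landing
point of the parameter ray of angle `θ`, a boundary point of `M_d`. -/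
theorem result (d : ℕ) (hd : 2 ≤ d) :
    (∀ (c₀ : ℂ) (χ : ℝ), c₀ ∈ multibrotSet d → LyapunovExponent d c₀ χ → Scales d c₀) ∧
    (∃ ψ : ℂ → ℂ, IsExteriorMap (multibrotSet d) ψ) ∧
    ∀ ψ : ℂ → ℂ, IsExteriorMap (multibrotSet d) ψ →
      ∀ᵐ θ : ℝ, ∃ c₀ ∈ frontier (multibrotSet d),
        Tendsto (fun r : ℝ => ψ (r * Complex.exp (θ * Complex.I))) (𝓝[>] 1) (𝓝 c₀) ∧
        LyapunovExponent d c₀ (Real.log d) ∧ Scales d c₀ := by
  have key : ∀ (c₀ : ℂ) (χ : ℝ), c₀ ∈ multibrotSet d → LyapunovExponent d c₀ χ →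
      Scales d c₀ := by
    intro c₀ χ hc₀ h
    have hS := Pool.Agent.Y298.CA.scal_all hd (χ := χ) (c₀ := c₀) ⟨h.1, hc₀, h.2⟩
    refine ⟨hS.areaM, hS.areaH, hS.inM, hS.inH, ?_⟩
    intro σ hσ0 hσ
    obtain ⟨C, hC, H⟩ := hS.dens σ hσ0 hσ
    refine ⟨C, hC, fun c hc hne => ?_⟩
    obtain ⟨⟨c₁, h1, p, h2, h3, h4⟩, c₂, h5, h6⟩ := H c hc hne
    exact ⟨⟨c₁, ⟨p, h2, h3, h4⟩, h1⟩, c₂, h6, h5⟩
  refine ⟨key, ?_⟩
  obtain ⟨β, hβ⟩ := Pool.Agent.H713R2.exists_beta (d := d) hd
  refine ⟨⟨_, Pool.Agent.H713R2.exteriorMap_of_beta hβ⟩, ?_⟩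
  intro ψ hψ
  filter_upwards [Pool.Agent.Y272.TY.ae_neg' (Pool.Agent.Y272.TY.typical_all hd hβ)] with θ hθ
  obtain ⟨c₀, A, R, h⟩ := hθ
  obtain ⟨h1, h2, h3⟩ := Pool.Agent.Y298.CA.lyap_of_typ hd hβ h
  exact ⟨c₀, h.frontier hd hβ, h.tendsto_psi hβ hψ, ⟨h1, h3⟩, key c₀ _ h2 ⟨h1, h3⟩⟩

end Pool.Agent.Results.MP_c35c17_an.ExactScaling
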