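import Mathlib
import Pool.Prelude.Def_F_c31e40fa
import Pool.Agent.Y298.SH.Final
import Pool.Agent.Y298.CD.Grw
import Pool.Agent.TH279.MD.Final

/-!
# Density of hyperbolicity at the parameters with a uniformly expanding critical orbit

The starting results `MP_c35c17_an.QuadraticDensityMisiurewicz` and
`MP_af9036_an.MisiurewiczAllDegrees` are about one Misiurewicz parameter at a time. Here the critical
orbit need not be finite: it is only assumed that `|(f ^ M)'| ≥ 2` along it, for some `M`. The bounds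
have the sharp exponents, and constants which depend only on `d` and `M`; so they are new for the
sequence of all Misiurewicz parameters with a given `M`, too.

The mathematics is in the modules `Pool.Agent.Y298.SH.*` of the starting tree, which were not handed
in there.
-/

set_option autoImplicit false

open Set Filter Metric MeasureTheory Topology
open N62a1eb23 (multibrotSet IsAttractingCycle)

namespace Pool.Agent.Results.MP_c35c17_an.UniformlyExpanding

/-- The map `z ↦ z ^ d + c`. -/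
def f (d : ℕ) (c : ℂ) : ℂ → ℂ := fun z => z ^ d + c

/-- The filled Julia set of `z ^ d + c`. -/
def filledJulia (d : ℕ) (c : ℂ) : Set ℂ :=
  {z | ¬ Tendsto (fun k => (f d c)^[k] z) atTop (Bornology.cobounded ℂ)}

/-- `c` is superattracting: the critical point `0` is periodic with the period dividing `p`, and lies
on an attracting cycle. -/
def Centre (d p : ℕ) (c : ℂ) : Prop :=
  1 ≤ p ∧ (f d c)^[p] 0 = 0 ∧ IsAttractingCycle (f d c) p 0

/-- The parameter `c` lies in the Multibrot set, and the `M`-th iterate of `z ^ d + c` has a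
derivative of modulus at least `2` at every point of the orbit of the critical value `c`. -/
def Expanding (d M : ℕ) (c : ℂ) : Prop :=
  c ∈ multibrotSet d ∧ ∀ j : ℕ, 2 ≤ ‖deriv ((f d c)^[M]) ((f d c)^[j] c)‖

/-- `c` is a Misiurewicz parameter: the critical point is strictly preperiodic. -/
def Misiurewicz (d : ℕ) (c : ℂ) : Prop :=
  (∃ m n : ℕ, 1 ≤ n ∧ (f d c)^[m + n] 0 = (f d c)^[m] 0) ∧ ∀ p : ℕ, 1 ≤ p → (f d c)^[p] 0 ≠ 0

/-- Every Misiurewicz parameter is expanding. -/
theorem expanding_of_misiurewicz {d : ℕ} (hd : 2 ≤ d) {c : ℂ} (h : Misiurewicz d c) :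
    ∃ M : ℕ, Expanding d M c := by
  obtain ⟨hpp, hnp⟩ := h
  have hM : c ∈ multibrotSet d := Pool.Agent.TH279.MD.mem_M_of_preper hpp
  obtain ⟨L, k, ω, hO⟩ := Pool.Agent.TH279.MD.orb_of_preper hd hpp hnp
  have hmu := Pool.Agent.TH279.MD.repelling hd hO
  have hper := Pool.Agent.TH279.MD.vv_period hO
  have hne := Pool.Agent.TH279.MD.vv_ne_zero hd hO
  have hlt := hO.lt
  have hd0 : (d : ℂ) ≠ 0 := by
    have : d ≠ 0 := by omega
    exact_mod_cast this
  set a : ℕ → ℝ := fun j => ‖(d : ℂ) * Pool.Agent.TH279.MD.vv d c c j ^ (d - 1)‖ with ha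
  have ha0 : ∀ j, 0 < a j := fun j => norm_pos_iff.mpr (mul_ne_zero hd0 (pow_ne_zero _ (hne j)))
  set p : ℕ := L - k with hp
  have haper : ∀ j, k + 1 ≤ j → a (j + p) = a j := by
    intro j hj
    simp only [ha, hper j hj]
  set Q : ℕ → ℝ := fun n => ∏ i ∈ Finset.range n, a i with hQ
  have hQ0 : ∀ n, 0 < Q n := fun n => Finset.prod_pos fun i _ => ha0 i
  set μ : ℝ := ‖∏ j ∈ Finset.Icc (k + 1) L, ((d : ℂ) * Pool.Agent.TH279.MD.vv d c c j ^ (d - 1))‖
    with hμ
  have hμ' : μ = ∏ j ∈ Finset.Icc (k + 1) L, a j := by rw [hμ, norm_prod]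
  have hQs : ∀ n, Q (n + 1) = Q n * a n := fun n => Finset.prod_range_succ _ _
  have hbase : Q (k + 1 + p) = μ * Q (k + 1) := by
    have h1 : k + 1 + p = L + 1 := by omega
    rw [h1, hμ', mul_comm, hQ]
    have h2 : Finset.Icc (k + 1) L = Finset.Ico (k + 1) (L + 1) := by
      ext x
      simp only [Finset.mem_Icc, Finset.mem_Ico]
      omega
    rw [h2]
    exact (Finset.prod_range_mul_prod_Ico _ (by omega)).symm
  have hstep : ∀ n, k + 1 ≤ n → Q (n + p) = μ * Q n := by
    intro n hn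
    induction n, hn using Nat.le_induction with
    | base => exact hbase
    | succ n hn ih =>
      have h1 : n + 1 + p = n + p + 1 := by omega
      rw [h1, hQs, ih, haper n hn, hQs, mul_assoc]
  have hpow : ∀ K n, k + 1 ≤ n → Q (n + p * K) = μ ^ K * Q n := by
    intro K
    induction K with
    | zero => intro n _; simp
    | succ K ih =>
      intro n hn
      have h1 : n + p * (K + 1) = (n + p * K) + p := by ring
      rw [h1, hstep _ (by omega), ih n hn, pow_succ]
      ring
  -- the choice of the iterate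
  have hev : ∀ j ∈ Finset.range (k + 1), ∀ᶠ K : ℕ in atTop,
      2 * Q j ≤ μ ^ K * Q (j + p * (k + 1)) := by
    intro j _
    have h1 : Tendsto (fun K : ℕ => μ ^ K * Q (j + p * (k + 1))) atTop atTop :=
      (tendsto_pow_atTop_atTop_of_one_lt hmu).atTop_mul_const (hQ0 _)
    exact h1.eventually_ge_atTop _
  have hev2 : ∀ᶠ K : ℕ in atTop, 2 ≤ μ ^ K :=
    (tendsto_pow_atTop_atTop_of_one_lt hmu).eventually_ge_atTop _
  obtain ⟨K, hK1, hK2⟩ := (((Finset.eventually_all _).mpr hev).and hev2).exists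
  have hp1 : 1 ≤ p := by omega
  have hbig : ∀ j, 2 * Q j ≤ Q (j + p * (k + 1 + K)) := by
    intro j
    rcases Nat.lt_or_ge j (k + 1) with hj | hj
    · have h1 : j + p * (k + 1 + K) = j + p * (k + 1) + p * K := by ring
      have h2 : k + 1 ≤ j + p * (k + 1) := by nlinarith
      rw [h1, hpow K _ h2]
      exact hK1 j (Finset.mem_range.mpr hj)
    · rw [hpow _ j hj]
      refine mul_le_mul_of_nonneg_right ?_ (hQ0 j).le
      rw [pow_add]
      have h3 : 1 ≤ μ ^ (k + 1) := one_le_pow₀ hmu.le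
      have h4 : 0 ≤ μ ^ K := by positivity
      nlinarith
  refine ⟨p * (k + 1 + K), hM, fun j => ?_⟩
  have h1 : ‖deriv ((f d c)^[p * (k + 1 + K)]) ((f d c)^[j] c)‖ * Q j =
      Q (j + p * (k + 1 + K)) := by
    have h2 := Pool.Agent.Y298.SH.deriv_iter_eq d (p * (k + 1 + K)) c ((f d c)^[j] c)
    have h3 : deriv ((f d c)^[p * (k + 1 + K)]) ((f d c)^[j] c) =
        ∏ i ∈ Finset.range (p * (k + 1 + K)),
          (d : ℂ) * ((Pool.Agent.TH279.MD.f d c)^[i] ((f d c)^[j] c)) ^ (d - 1) := h2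
    rw [h3, norm_prod, hQ]
    simp only
    rw [Finset.prod_range_add, mul_comm]
    congr 1
    apply Finset.prod_congr rfl
    intro i _
    simp only [ha, Pool.Agent.TH279.MD.vv]
    rw [add_comm j i, Function.iterate_add_apply]
    rfl
  have h2 := hbig j
  rw [← h1] at h2
  exact le_of_mul_le_mul_right h2 (hQ0 j)

/-- Let `d ≥ 2`. (1) For every `M` there is a constant `C` such that for all parameters `c₀`, `c` of
the Multibrot set `M_d`, `c ≠ c₀`, with `c₀` expanding for the iterate `M`: the area of the filled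
Julia set of `z ^ d + c` is at most `C |c - c₀| ^ (2 / (d - 1))`; there is a superattracting parameter
of period at most `C (1 + |log |c - c₀||) ^ 2` at distance at most `C |c - c₀| ^ (d / (d - 1))` from
`c`; and the speed at `c` of every holomorphic disc in a connected open set of parameters without
attracting cycles, or in `M_d`, is at most `C |c - c₀| ^ (d / (d - 1))`. (2) The set of these
parameters `c₀` is compact. (3) Every Misiurewicz parameter is expanding for some `M`. -/
theorem result (d : ℕ) (hd : 2 ≤ d) :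
    (∀ M : ℕ, ∃ C : ℝ, 0 < C ∧ ∀ c₀ : ℂ, Expanding d M c₀ → ∀ c ∈ multibrotSet d, c ≠ c₀ →
      volume (filledJulia d c) ≤ ENNReal.ofReal (C * ‖c - c₀‖ ^ (2 / ((d : ℝ) - 1))) ∧
      (∃ (c' : ℂ) (p : ℕ), Centre d p c' ∧ (p : ℝ) ≤ C * (1 + |Real.log ‖c - c₀‖|) ^ 2 ∧
        ‖c' - c‖ ≤ C * ‖c - c₀‖ ^ ((d : ℝ) / ((d : ℝ) - 1))) ∧
      ∀ V : Set ℂ, IsOpen V → IsPreconnected V →
        ((∀ c' ∈ V, ¬ ∃ m z, IsAttractingCycle (f d c') m z) ∨ V ⊆ multibrotSet d) →
        ∀ γ : ℂ → ℂ, DifferentiableOn ℂ γ (ball 0 1) → (∀ t ∈ ball (0 : ℂ) 1, γ t ∈ V) →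
          γ 0 = c → ‖deriv γ 0‖ ≤ C * ‖c - c₀‖ ^ ((d : ℝ) / ((d : ℝ) - 1))) ∧
    (∀ M : ℕ, IsCompact {c₀ : ℂ | Expanding d M c₀}) ∧
    ∀ c₀ : ℂ, Misiurewicz d c₀ → ∃ M : ℕ, Expanding d M c₀ := by
  have hiff : ∀ (M : ℕ) (c₀ : ℂ), Expanding d M c₀ ↔ Pool.Agent.Y298.SH.SHyp d M c₀ := by
    intro M c₀
    constructor
    · rintro ⟨h1, h2⟩
      refine ⟨hd, ?_, fun j => ?_, h2⟩
      · by_contra hM
        have hM0 : M = 0 := by omega
        have h3 := h2 0
        subst hM0
        simp only [Function.iterate_zero, deriv_id', norm_one] at h3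
        linarith
      · have h3 := (Pool.Agent.H712R2.mem_multibrot_iff hd c₀).mp h1 (j + 1)
        rw [Pool.Agent.Y298.SH.CD.P_succ_eq hd] at h3
        exact h3
    · intro h
      refine ⟨(Pool.Agent.H712R2.mem_multibrot_iff hd c₀).mpr fun j => ?_, h.exp⟩
      rcases j with _ | j
      · simp [Pool.Agent.H712R2.P]
      · rw [Pool.Agent.Y298.SH.CD.P_succ_eq hd]
        exact h.bd j
  refine ⟨fun M => ?_, fun M => ?_, fun c₀ h => expanding_of_misiurewicz hd h⟩
  · obtain ⟨C, hC, H⟩ := Pool.Agent.Y298.SH.upper_uniform hd M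
    refine ⟨C, hC, fun c₀ h₀ c hc hne => ?_⟩
    obtain ⟨h1, ⟨c', h2, p, h3, h4, h5, h6⟩, h7⟩ := H c₀ ((hiff M c₀).mp h₀) c hc hne
    exact ⟨h1, ⟨c', p, ⟨h3, h4, h5⟩, h6, h2⟩, h7⟩
  · have h1 : {c₀ : ℂ | Expanding d M c₀} = {c₀ : ℂ | Pool.Agent.Y298.SH.SHyp d M c₀} := by
      ext c₀
      exact hiff M c₀
    rw [h1]
    exact Pool.Agent.Y298.SH.isCompact_SHyp d M

end Pool.Agent.Results.MP_c35c17_an.UniformlyExpanding
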